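import Mathlib

set_option autoImplicit false
set_option linter.unusedSectionVars false

/-!
# Every set of at least `6 t ^ 2 + 5 t` nonzero elements is `t`-weak sequenceable

Reserve a set `R` of `3 t` elements. Order the others greedily so that no sum of at most `t`
consecutive elements is `0` or the negative of a reserved element; at most `t (3 t + 1)` elements
remain. Order these greedily, avoiding only the sum `0`; at most `t` elements remain. Append each
of them after a suitable reserved element. The reserved elements that are left can be inserted into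
the first part, at distance `t` of each other.
-/

namespace Pool.Agent.Results.MP_b4ec45_co.LargeSets

variable {G : Type*} [AddCommGroup G] [DecidableEq G]

/-- No nonempty contiguous part of `l` of length at most `t` has its sum in `F`. -/
def Av (t : ℕ) (F : Finset G) (l : List G) : Prop :=
  ∀ u w v : List G, l = u ++ w ++ v → w ≠ [] → w.length ≤ t → w.sum ∉ F

theorem Av.mono {t : ℕ} {F F' : Finset G} {l : List G} (h : Av t F l) (hF : F' ⊆ F) :
    Av t F' l := fun u w v h1 h2 h3 h4 => h u w v h1 h2 h3 (hF h4)

theorem Av_nil (t : ℕ) (F : Finset G) : Av t F [] := by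
  intro u w v h1 h2
  have : w = [] := by
    have h3 := congrArg List.length h1
    simp only [List.length_nil, List.length_append] at h3
    exact List.length_eq_zero_iff.mp (by omega)
  exact absurd this h2

theorem Av_insert {t : ℕ} {F : Finset G} {u v : List G} {x : G} (h : Av t F (u ++ v))
    (hx : ∀ w1 w2 : List G, w1 <:+ u → w2 <+: v → w1.length + w2.length < t →
      w1.sum + x + w2.sum ∉ F) : Av t F (u ++ x :: v) := by
  intro a w b hab hw hlen
  have hab' : (a ++ w) ++ b = u ++ (x :: v) := hab.symm
  rcases List.append_eq_append_iff.mp hab' with ⟨c, hc1, hc2⟩ | ⟨c, hc1, hc2⟩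
  · -- u = (a ++ w) ++ c, b = c ++ x :: v
    apply h a w (c ++ v) _ hw hlen
    rw [hc1]; simp
  · -- a ++ w = u ++ c, x :: v = c ++ b
    cases c with
    | nil =>
      simp only [List.append_nil] at hc1
      apply h a w v _ hw hlen
      rw [hc1]
    | cons y c' =>
      simp only [List.cons_append, List.cons.injEq] at hc2
      obtain ⟨rfl, hv⟩ := hc2
      rcases List.append_eq_append_iff.mp hc1 with ⟨d, hd1, hd2⟩ | ⟨d, hd1, hd2⟩
      · -- u = a ++ d, w = d ++ x :: c'
        have h1 : d <:+ u := ⟨a, hd1.symm⟩
        have h2 : c' <+: v := ⟨b, hv.symm⟩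
        have h3 : d.length + c'.length < t := by
          rw [hd2] at hlen
          simp only [List.length_append, List.length_cons] at hlen
          omega
        have h4 := hx d c' h1 h2 h3
        rw [hd2]
        simpa [add_assoc] using h4
      · -- a = u ++ d, x :: c' = d ++ w
        cases d with
        | nil =>
          simp only [List.nil_append] at hd2
          have h3 : ([] : List G).length + c'.length < t := by
            rw [← hd2] at hlen
            simp only [List.length_cons] at hlen
            simp only [List.length_nil]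
            omega
          have h4 := hx [] c' ⟨u, by simp⟩ ⟨b, hv.symm⟩ h3
          rw [← hd2]
          simpa using h4
        | cons z d' =>
          simp only [List.cons_append, List.cons.injEq] at hd2
          obtain ⟨rfl, hd3⟩ := hd2
          apply h (u ++ d') w b _ hw hlen
          rw [hv, hd3]; simp

theorem Av_snoc {t : ℕ} {F : Finset G} {l : List G} {x : G} (h : Av t F l)
    (hx : ∀ w : List G, w <:+ l → w.length < t → w.sum + x ∉ F) : Av t F (l ++ [x]) := by
  apply Av_insert (by simpa using h)
  intro w1 w2 h1 h2 h3
  have : w2 = [] := List.prefix_nil.mp h2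
  subst this
  simpa using hx w1 h1 (by simpa using h3)

/-- The sums of the suffixes of `l` of length less than `t`. -/
def sufSums (t : ℕ) (l : List G) : Finset G :=
  (Finset.range t).image (fun j => (l.drop (l.length - j)).sum)

theorem sufSums_card (t : ℕ) (l : List G) : (sufSums t l).card ≤ t :=
  Finset.card_image_le.trans (by simp)

theorem mem_sufSums {t : ℕ} {l w : List G} (hw : w <:+ l) (ht : w.length < t) :
    w.sum ∈ sufSums t l := by
  unfold sufSums
  rw [Finset.mem_image]
  refine ⟨w.length, by simpa using ht, ?_⟩
  obtain ⟨u, rfl⟩ := hw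
  simp

/-- The values that are forbidden for the next element. -/
def forb (t : ℕ) (F : Finset G) (l : List G) : Finset G :=
  (F ×ˢ sufSums t l).image (fun p => p.1 - p.2)

theorem forb_card (t : ℕ) (F : Finset G) (l : List G) : (forb t F l).card ≤ F.card * t := by
  unfold forb
  refine Finset.card_image_le.trans ?_
  rw [Finset.card_product]
  exact Nat.mul_le_mul_left _ (sufSums_card t l)

theorem Av_snoc' {t : ℕ} {F : Finset G} {l : List G} {x : G} (h : Av t F l)
    (hx : x ∉ forb t F l) : Av t F (l ++ [x]) := by
  apply Av_snoc h
  intro w hw hlen hmem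
  apply hx
  unfold forb
  rw [Finset.mem_image]
  exact ⟨(w.sum + x, w.sum), Finset.mem_product.mpr ⟨hmem, mem_sufSums hw hlen⟩, by simp⟩

/-- The greedy step, iterated. -/
theorem greedy (t : ℕ) (F : Finset G) : ∀ (n : ℕ) (pre : List G) (Z : Finset G), Z.card = n →
    Av t F pre → ∃ (l : List G) (Y : Finset G), l.Nodup ∧ Y ⊆ Z ∧ l.toFinset = Z \ Y ∧
      Y.card ≤ F.card * t ∧ Av t F (pre ++ l) := by
  intro n
  induction n with
  | zero =>
    intro pre Z hZ hpre
    refine ⟨[], Z, List.nodup_nil, subset_rfl, by simp, by omega, by simpa using hpre⟩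
  | succ n ih =>
    intro pre Z hZ hpre
    by_cases hle : Z.card ≤ F.card * t
    · exact ⟨[], Z, List.nodup_nil, subset_rfl, by simp, hle, by simpa using hpre⟩
    · push Not at hle
      have hlt : (forb t F pre).card < Z.card := lt_of_le_of_lt (forb_card t F pre) hle
      obtain ⟨x, hxZ, hx⟩ := Finset.exists_mem_notMem_of_card_lt_card hlt
      obtain ⟨l, Y, h1, h2, h3, h4, h5⟩ := ih (pre ++ [x]) (Z.erase x)
        (by rw [Finset.card_erase_of_mem hxZ]; omega) (Av_snoc' hpre hx)
      refine ⟨x :: l, Y, ?_, ?_, ?_, h4, ?_⟩
      · rw [List.nodup_cons]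
        refine ⟨fun hmem => ?_, h1⟩
        have : x ∈ l.toFinset := List.mem_toFinset.mpr hmem
        rw [h3] at this
        simp at this
      · exact h2.trans (Finset.erase_subset _ _)
      · rw [List.toFinset_cons, h3]
        ext y
        simp only [Finset.mem_insert, Finset.mem_sdiff, Finset.mem_erase]
        constructor
        · rintro (rfl | ⟨⟨_, h6⟩, h7⟩)
          · exact ⟨hxZ, fun hY => by simpa using h2 hY⟩
          · exact ⟨h6, h7⟩
        · rintro ⟨h6, h7⟩
          by_cases hyx : y = x
          · left; exact hyx
          · right; exact ⟨⟨hyx, h6⟩, h7⟩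
      · simpa using h5

/-- Appending the elements of `Y` one by one, each after an element of `R`. -/
theorem fillers (t : ℕ) : ∀ (n : ℕ) (pre : List G) (Y R : Finset G), Y.card = n →
    (0 : G) ∉ Y → Disjoint Y R → 2 * t + n ≤ R.card → Av t {0} pre →
    ∃ (l : List G) (R' : Finset G), l.Nodup ∧ R' ⊆ R ∧ l.toFinset = Y ∪ (R \ R') ∧
      Av t {0} (pre ++ l) := by
  intro n
  induction n with
  | zero =>
    intro pre Y R hY _ _ _ hpre
    rw [Finset.card_eq_zero] at hY
    subst hY
    exact ⟨[], R, List.nodup_nil, subset_rfl, by simp, by simpa using hpre⟩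
  | succ n ih =>
    intro pre Y R hY h0 hd hR hpre
    obtain ⟨y, hy⟩ : Y.Nonempty := by rw [← Finset.card_pos]; omega
    -- the filler
    set B : Finset G := forb t {0} pre ∪ (forb t {0} pre).image (fun z => z - y) with hB
    have hBc : B.card < R.card := by
      have h1 : B.card ≤ (forb t {0} pre).card + (forb t {0} pre).card :=
        (Finset.card_union_le _ _).trans (Nat.add_le_add_left Finset.card_image_le _)
      have h2 := forb_card t ({0} : Finset G) pre
      rw [Finset.card_singleton, one_mul] at h2
      omega
    obtain ⟨x, hxR, hxB⟩ := Finset.exists_mem_notMem_of_card_lt_card hBc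
    have hxy : x ≠ y := fun h => (Finset.disjoint_left.mp hd) hy (h ▸ hxR)
    have hx1 : x ∉ forb t {0} pre := fun h => hxB (Finset.mem_union_left _ h)
    have hx2 : ∀ z ∈ forb t {0} pre, z - y ≠ x := by
      intro z hz h
      exact hxB (Finset.mem_union_right _ (Finset.mem_image.mpr ⟨z, hz, h⟩))
    have hA1 : Av t {0} (pre ++ [x]) := Av_snoc' hpre hx1
    have hA2 : Av t {0} ((pre ++ [x]) ++ [y]) := by
      apply Av_snoc hA1
      intro w hw hlen
      rw [Finset.mem_singleton]
      rcases List.eq_nil_or_concat w with rfl | ⟨w', z, rfl⟩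
      · simp only [List.sum_nil, zero_add]
        intro h; rw [h] at hy; exact h0 hy
      · rw [List.concat_eq_append] at hw hlen ⊢
        obtain ⟨u, hu⟩ := hw
        rw [← List.append_assoc] at hu
        have hz : z = x := by
          have := congrArg List.getLast? hu
          simpa using this
        have hw' : w' <:+ pre := by
          refine ⟨u, ?_⟩
          have := congrArg List.dropLast hu
          simpa using this
        intro hsum
        apply hx2 (0 - w'.sum)
        · unfold forb
          rw [Finset.mem_image]
          refine ⟨(0, w'.sum), Finset.mem_product.mpr ⟨by simp, mem_sufSums hw' ?_⟩, rfl⟩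
          simp only [List.length_append, List.length_singleton] at hlen
          omega
        · rw [List.sum_append, List.sum_singleton, hz] at hsum
          have : x = 0 - w'.sum - y := by
            have h5 : w'.sum + x + y - w'.sum - y = 0 - w'.sum - y := by rw [hsum]
            have h6 : w'.sum + x + y - w'.sum - y = x := by abel
            rw [← h6, h5]
          exact this.symm
    obtain ⟨l, R', h1, h2, h3, h4⟩ := ih ((pre ++ [x]) ++ [y]) (Y.erase y) (R.erase x)
      (by rw [Finset.card_erase_of_mem hy]; omega)
      (fun h => h0 (Finset.mem_of_mem_erase h))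
      (by
        rw [Finset.disjoint_left]
        intro a ha hb
        exact (Finset.disjoint_left.mp hd) (Finset.mem_of_mem_erase ha)
          (Finset.mem_of_mem_erase hb))
      (by rw [Finset.card_erase_of_mem hxR]; omega) hA2
    have hxY : x ∉ Y := fun h => (Finset.disjoint_left.mp hd) h hxR
    have hyR : y ∉ R := fun h => (Finset.disjoint_left.mp hd) hy h
    refine ⟨x :: y :: l, R', ?_, h2.trans (Finset.erase_subset _ _), ?_, ?_⟩
    · rw [List.nodup_cons, List.nodup_cons]
      refine ⟨?_, ?_, h1⟩
      · intro hmem
        rcases List.mem_cons.mp hmem with h | h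
        · exact hxy h
        · have : x ∈ l.toFinset := List.mem_toFinset.mpr h
          rw [h3] at this
          simp [hxY] at this
      · intro h
        have : y ∈ l.toFinset := List.mem_toFinset.mpr h
        rw [h3] at this
        simp [hyR] at this
    · rw [List.toFinset_cons, List.toFinset_cons, h3]
      ext z
      simp only [Finset.mem_insert, Finset.mem_union, Finset.mem_sdiff, Finset.mem_erase]
      constructor
      · rintro (rfl | rfl | ⟨_, h⟩ | ⟨⟨_, h⟩, h'⟩)
        · right; exact ⟨hxR, fun h => by simpa using h2 h⟩
        · left; exact hy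
        · left; exact h
        · right; exact ⟨h, h'⟩
      · rintro (h | ⟨h, h'⟩)
        · by_cases hzy : z = y
          · right; left; exact hzy
          · right; right; left; exact ⟨hzy, h⟩
        · by_cases hzx : z = x
          · left; exact hzx
          · right; right; right; exact ⟨⟨hzx, h⟩, h'⟩
    · simpa using h4

/-- Inserting the elements of `xs` into `P`, at distance `t` of each other. -/
theorem insertion (t : ℕ) : ∀ (xs pre P Q : List G), Av t {0} (pre ++ (P ++ Q)) →
    t * (xs.length + 1) ≤ P.length →
    (∀ u w v : List G, P = u ++ w ++ v → w.length < t → ∀ x ∈ xs, w.sum + x ≠ 0) →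
    ∃ l : List G, l.Perm (xs ++ P) ∧ Av t {0} (pre ++ (l ++ Q)) := by
  intro xs
  induction xs with
  | nil =>
    intro pre P Q h _ _
    exact ⟨P, by simp, h⟩
  | cons x xs ih =>
    intro pre P Q h hlen hP
    simp only [List.length_cons] at hlen
    have hPt : t + t ≤ P.length := by nlinarith
    obtain ⟨P1, P2, hP12, hP1⟩ : ∃ P1 P2 : List G, P = P1 ++ P2 ∧ P1.length = t :=
      ⟨P.take t, P.drop t, by simp, by simp; omega⟩
    subst hP12
    have hP2 : t ≤ P2.length := by
      rw [List.length_append] at hPt; omega
    have hA : Av t {0} ((pre ++ P1) ++ x :: (P2 ++ Q)) := by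
      apply Av_insert
      · simpa using h
      · intro w1 w2 h1 h2 h3
        rw [Finset.mem_singleton]
        -- `w1` is a suffix of `P1`, `w2` is an initial part of `P2`
        have h1' : w1 <:+ P1 :=
          List.suffix_of_suffix_length_le h1 (List.suffix_append _ _) (by omega)
        have h2' : w2 <+: P2 :=
          List.prefix_of_prefix_length_le h2 (List.prefix_append _ _) (by omega)
        obtain ⟨a, ha⟩ := h1'
        obtain ⟨b, hb⟩ := h2'
        have h4 := hP a (w1 ++ w2) b (by rw [← ha, ← hb]; simp)
          (by rw [List.length_append]; exact h3) x (by simp)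
        rw [List.sum_append] at h4
        intro h5
        apply h4
        rw [← h5]; abel
    obtain ⟨l, hl1, hl2⟩ := ih (pre ++ P1 ++ [x]) P2 Q (by simpa using hA)
      (by rw [List.length_append, hP1] at hlen; nlinarith)
      (by
        intro u w v h1 h2 y hy
        exact hP (P1 ++ u) w v (by rw [h1]; simp) h2 y (by simp [hy]))
    refine ⟨P1 ++ x :: l, ?_, by simpa using hl2⟩
    have e1 : (P1 ++ x :: l).Perm (x :: (P1 ++ l)) := List.perm_middle
    have e2 : (P1 ++ l).Perm (P1 ++ (xs ++ P2)) := List.Perm.append_left _ hl1
    have e3 : (P1 ++ (xs ++ P2)).Perm (xs ++ (P1 ++ P2)) := by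
      rw [← List.append_assoc, ← List.append_assoc]
      exact List.Perm.append_right _ List.perm_append_comm
    simpa using e1.trans ((e2.trans e3).cons x)

/-- Every finite set `A` of nonzero elements of an abelian group `G` with `|A| ≥ 6 t ^ 2 + 5 t` has
an ordering `l` with partial sums `s_i ≠ s_j` for all `0 ≤ i < j ≤ |A|` with `j - i ≤ t`. -/
theorem result (G : Type*) [AddCommGroup G] [DecidableEq G] (t : ℕ) (A : Finset G)
    (h0 : (0 : G) ∉ A) (hA : 6 * t ^ 2 + 5 * t ≤ A.card) :
    ∃ l : List G, l.Nodup ∧ l.toFinset = A ∧
      ∀ i j : ℕ, i < j → j ≤ l.length → j - i ≤ t → (l.take i).sum ≠ (l.take j).sum := by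
  -- it suffices to find a list with `Av`
  suffices hmain : ∃ l : List G, l.Nodup ∧ l.toFinset = A ∧ Av t {0} l by
    obtain ⟨l, h1, h2, h3⟩ := hmain
    refine ⟨l, h1, h2, ?_⟩
    intro i j hij hj hjt heq
    have e1 : l = l.take i ++ (l.take j).drop i ++ l.drop j := by
      have : (l.take i) = (l.take j).take i := by
        rw [List.take_take]; congr 1; omega
      rw [this, List.take_append_drop, List.take_append_drop]
    have e2 : (l.take j).sum = (l.take i).sum + ((l.take j).drop i).sum := by
      have : (l.take i) = (l.take j).take i := by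
        rw [List.take_take]; congr 1; omega
      rw [this, List.sum_take_add_sum_drop]
    have e3 : ((l.take j).drop i).length = j - i := by
      rw [List.length_drop, List.length_take]; omega
    have e4 := h3 _ _ _ e1 (by
      intro h
      rw [h] at e3
      simp only [List.length_nil] at e3
      omega) (by omega)
    rw [Finset.mem_singleton] at e4
    apply e4
    rw [e2] at heq
    have : (l.take i).sum + 0 = (l.take i).sum + ((l.take j).drop i).sum := by
      rw [add_zero]; exact heq
    exact (add_left_cancel this).symm
  -- the reserved elements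
  obtain ⟨R, hRA, hRc⟩ := Finset.exists_subset_card_eq (s := A) (n := 3 * t) (by nlinarith)
  -- phase 1
  obtain ⟨P, Y, hP1, hP2, hP3, hP4, hP5⟩ := greedy t (insert 0 (R.image (fun x => -x)))
    (A \ R).card [] (A \ R) rfl (Av_nil _ _)
  rw [List.nil_append] at hP5
  have hFc : (insert 0 (R.image (fun x => -x))).card ≤ 3 * t + 1 := by
    refine (Finset.card_insert_le _ _).trans ?_
    have : (R.image (fun x => -x)).card ≤ R.card := Finset.card_image_le
    omega
  have hYc : Y.card ≤ (3 * t + 1) * t := hP4.trans (Nat.mul_le_mul_right _ hFc)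
  -- phase 2
  obtain ⟨Q1, Y', hQ1, hQ2, hQ3, hQ4, hQ5⟩ := greedy t ({0} : Finset G) Y.card P Y rfl
    (hP5.mono (by simp))
  rw [Finset.card_singleton, one_mul] at hQ4
  have hY'A : Y' ⊆ A \ R := hQ2.trans hP2
  -- phase 3
  obtain ⟨Q2, R', hR1, hR2, hR3, hR4⟩ := fillers t Y'.card (P ++ Q1) Y' R rfl
    (fun h => h0 (Finset.mem_sdiff.mp (hY'A h)).1)
    (by
      rw [Finset.disjoint_left]
      intro a ha hb
      exact (Finset.mem_sdiff.mp (hY'A ha)).2 hb)
    (by omega) hQ5
  -- phase 4
  have hPlen : P.length = (A \ R).card - Y.card := by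
    rw [← List.toFinset_card_of_nodup hP1, hP3, Finset.card_sdiff_of_subset hP2]
  have hARc : (A \ R).card = A.card - 3 * t := by
    rw [Finset.card_sdiff_of_subset hRA, hRc]
  have hR'c : R'.toList.length ≤ 3 * t := by
    rw [Finset.length_toList, ← hRc]; exact Finset.card_le_card hR2
  obtain ⟨l, hl1, hl2⟩ := insertion t R'.toList [] P (Q1 ++ Q2) (by simpa using hR4)
    (by
      have h1 : t * (R'.toList.length + 1) ≤ t * (3 * t + 1) :=
        Nat.mul_le_mul_left _ (by omega)
      rw [hPlen, hARc]
      have h2 : t * (3 * t + 1) + (3 * t + 1) * t + 3 * t = 6 * t ^ 2 + 5 * t := by ring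
      omega)
    (by
      intro u w v h1 h2 x hx
      rw [Finset.mem_toList] at hx
      rcases List.eq_nil_or_concat w with rfl | ⟨w', z, hw'⟩
      · rw [List.sum_nil, zero_add]
        intro h; rw [h] at hx; exact h0 (hRA (hR2 hx))
      · have h3 := hP5 u w v h1 (by rw [hw']; simp) (by omega)
        intro h4
        apply h3
        rw [Finset.mem_insert]
        right
        rw [Finset.mem_image]
        exact ⟨x, hR2 hx, by rw [eq_comm, eq_neg_iff_add_eq_zero]; exact h4⟩)
  rw [List.nil_append] at hl2
  have hset : (l ++ (Q1 ++ Q2)).toFinset = A := by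
    rw [List.toFinset_append, List.toFinset_append, List.toFinset_eq_of_perm _ _ hl1,
      List.toFinset_append, Finset.toList_toFinset, hP3, hQ3, hR3]
    ext a
    simp only [Finset.mem_union, Finset.mem_sdiff]
    constructor
    · rintro ((h | ⟨⟨h, _⟩, _⟩) | (⟨h, _⟩ | (h | ⟨h, _⟩)))
      · exact hRA (hR2 h)
      · exact h
      · exact (Finset.mem_sdiff.mp (hP2 h)).1
      · exact (Finset.mem_sdiff.mp (hY'A h)).1
      · exact hRA h
    · intro h
      by_cases hR : a ∈ R
      · by_cases hR' : a ∈ R'
        · left; left; exact hR'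
        · right; right; right; exact ⟨hR, hR'⟩
      · by_cases hY : a ∈ Y
        · by_cases hY' : a ∈ Y'
          · right; right; left; exact hY'
          · right; left; exact ⟨hY, hY'⟩
        · left; right; exact ⟨⟨h, hR⟩, hY⟩
  refine ⟨l ++ (Q1 ++ Q2), ?_, hset, hl2⟩
  -- no repetitions, by counting
  have hlen : (l ++ (Q1 ++ Q2)).length = A.card := by
    rw [List.length_append, List.length_append, hl1.length_eq, List.length_append,
      Finset.length_toList, hPlen, hARc]
    have e1 : Q1.length = Y.card - Y'.card := by
      rw [← List.toFinset_card_of_nodup hQ1, hQ3, Finset.card_sdiff_of_subset hQ2]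
    have e2 : Q2.length = Y'.card + (R.card - R'.card) := by
      rw [← List.toFinset_card_of_nodup hR1, hR3, Finset.card_union_of_disjoint,
        Finset.card_sdiff_of_subset hR2]
      rw [Finset.disjoint_left]
      intro a ha hb
      exact (Finset.mem_sdiff.mp (hY'A ha)).2 (Finset.mem_sdiff.mp hb).1
    have e3 : Y'.card ≤ Y.card := Finset.card_le_card hQ2
    have e4 : R'.card ≤ R.card := Finset.card_le_card hR2
    have e5 : Y.card ≤ (A \ R).card := Finset.card_le_card hP2
    rw [e1, e2, hRc]
    rw [hRc] at e4
    rw [hARc] at e5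
    have e6 : 3 * t ≤ A.card := by nlinarith
    omega
  rw [← Multiset.coe_nodup, ← Multiset.toFinset_card_eq_card_iff_nodup]
  rw [List.toFinset_coe, hset, Multiset.coe_card, hlen]

end Pool.Agent.Results.MP_b4ec45_co.LargeSets
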